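import Mathlib
import Pool.Agent.H.MP_4d240a_al.Tri

namespace Pool.Agent.Results.MP_4d240a_al.Tri

open Polynomial Pool.Agent.H.MP_4d240a_al

def RightMcCoy (R : Type) [Ring R] : Prop :=
  ∀ f g : R[X], f ≠ 0 → g ≠ 0 → f * g = 0 → ∃ s : R, s ≠ 0 ∧ f * C s = 0

def LeftMcCoy (R : Type) [Ring R] : Prop :=
  ∀ f g : R[X], f ≠ 0 → g ≠ 0 → f * g = 0 → ∃ s : R, s ≠ 0 ∧ C s * g = 0

lemma right : RightMcCoy S := by
  intro f g _ hg h
  obtain ⟨s, hs, h'⟩ := mc f.coeff g.coeff
    (g.support.finite_toSet.subset fun j hj => by simpa using hj)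
    (by
      by_contra hc
      push Not at hc
      exact hg (Polynomial.ext fun n => by simp [hc n]))
    (fun n => by rw [← coeff_mul, h, coeff_zero])
  exact ⟨s, hs, Polynomial.ext fun n => by rw [coeff_mul_C, h', coeff_zero]⟩

lemma left : LeftMcCoy Sᵐᵒᵖ := by
  intro f g hf _ h
  obtain ⟨s, hs, h'⟩ := mc (fun n => (g.coeff n).unop) (fun n => (f.coeff n).unop)
    (f.support.finite_toSet.subset fun j hj => by simpa using hj)
    (by
      by_contra hc
      push Not at hc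
      exact hf (Polynomial.ext fun n => by simpa using hc n))
    (fun n => by
      have h1 := congrArg (fun p : Sᵐᵒᵖ[X] => (p.coeff n).unop) h
      simp only [coeff_mul, Finset.unop_sum, MulOpposite.unop_mul, coeff_zero,
        MulOpposite.unop_zero] at h1
      rw [← Finset.Nat.sum_antidiagonal_swap]
      exact h1)
  refine ⟨MulOpposite.op s, by simpa using hs, Polynomial.ext fun n => ?_⟩
  rw [coeff_C_mul, coeff_zero]
  apply MulOpposite.unop_injective
  simpa using h' n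

theorem result :
    (∃ (R : Type) (_ : Ring R), RightMcCoy R ∧
      ∃ a y : R, a = a ^ 2 * y ∧ ∀ z : R, a ≠ z * a ^ 2) ∧
    (∃ (R : Type) (_ : Ring R), LeftMcCoy R ∧
      ∃ a y : R, a = a ^ 2 * y ∧ ∀ z : R, a ≠ z * a ^ 2) := by
  refine ⟨⟨S, inferInstance, right, ⟨AE, AE_mem⟩, ⟨YE, YE_mem⟩, ?_, ?_⟩,
    ⟨Sᵐᵒᵖ, inferInstance, left, MulOpposite.op ⟨aE, aE_mem⟩, MulOpposite.op ⟨yE, yE_mem⟩, ?_, ?_⟩⟩
  · apply Subtype.ext
    rw [sq]
    exact AAY.symm
  · intro z h
    rw [sq] at h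
    exact A_ne z (congrArg Subtype.val h)
  · apply MulOpposite.unop_injective
    apply Subtype.ext
    rw [sq]
    exact yaa.symm
  · intro z h
    rw [sq] at h
    exact a_ne (z.unop : S) (congrArg (fun r : Sᵐᵒᵖ => ((r.unop : S) : E)) h)

end Pool.Agent.Results.MP_4d240a_al.Tri
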